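import Pool.Agent.U280.OL.Stm
import Pool.Agent.U869.OE.D
import Pool.Agent.U643.OE.F1

/-!
# Project OL, package Q2: measurability and continuity (helper858)
-/

set_option autoImplicit false

open MeasureTheory FourierTransform Set Filter Topology
open scoped ENNReal

namespace Pool.Agent.U858.OL

open Pool.Agent.U280.OD Pool.Agent.U280.OE Pool.Agent.U280.OL Pool.Agent.U869.OE

variable {k m : ℕ}

/-- the projection of the support to the first variable -/
def KX (F : P k m → ℂ) : Set (E k) := Prod.fst '' tsupport F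

/-- the projection of the support to the second variable -/
def KY (F : P k m → ℂ) : Set (Fin m → ℝ) := Prod.snd '' tsupport F

theorem isCompact_KX {F : P k m → ℂ} (hc : HasCompactSupport F) : IsCompact (KX F) :=
  IsCompact.image hc continuous_fst

theorem isCompact_KY {F : P k m → ℂ} (hc : HasCompactSupport F) : IsCompact (KY F) :=
  IsCompact.image hc continuous_snd

theorem zero_X {F : P k m → ℂ} {x : E k} (hx : x ∉ KX F) (y : Fin m → ℝ) : F (x, y) = 0 := by
  by_contra h
  exact hx ⟨(x, y), subset_tsupport _ h, rfl⟩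

theorem zero_Y {F : P k m → ℂ} {y : Fin m → ℝ} (hy : y ∉ KY F) (x : E k) : F (x, y) = 0 := by
  by_contra h
  exact hy ⟨(x, y), subset_tsupport _ h, rfl⟩

/-- the Fourier transform of a slice -/
theorem four_eq (F : P k m → ℂ) (y : Fin m → ℝ) (ξ : E k) :
    𝓕 (sl F y) ξ = ∫ v in KX F, ch v (-ξ) * F (v, y) := by
  rw [setIntegral_eq_integral_of_forall_compl_eq_zero]
  · rw [Real.fourier_eq]
    refine integral_congr_ae (Eventually.of_forall fun v => ?_)
    simp only [ch, sl, inner_neg_left, real_inner_comm]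
    rfl
  · intro v hv
    rw [zero_X hv, mul_zero]

theorem four_cont {F : P k m → ℂ} (hF : Continuous F) (hc : HasCompactSupport F) :
    Continuous (fun q : (Fin m → ℝ) × E k => 𝓕 (sl F q.1) q.2) := by
  have h1 : Continuous (Function.uncurry
      (fun (q : (Fin m → ℝ) × E k) (v : E k) => ch v (-q.2) * F (v, q.1))) := by
    have a1 : Continuous fun p : ((Fin m → ℝ) × E k) × E k => p.2 := continuous_snd
    have a2 : Continuous fun p : ((Fin m → ℝ) × E k) × E k => -p.1.2 :=
      (continuous_snd.comp continuous_fst).neg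
    have a3 : Continuous fun p : ((Fin m → ℝ) × E k) × E k => p.1.1 :=
      continuous_fst.comp continuous_fst
    exact (continuous_ch' _ _ a1 a2).mul (hF.comp (a1.prodMk a3))
  have h2 := continuous_parametric_integral_of_continuous (μ := (volume : Measure (E k))) h1
    (isCompact_KX hc)
  have h3 : (fun q : (Fin m → ℝ) × E k => 𝓕 (sl F q.1) q.2) =
      fun q : (Fin m → ℝ) × E k => ∫ v in KX F, ch v (-q.2) * F (v, q.1) := by
    funext q
    exact four_eq F q.1 q.2
  rw [h3]
  exact h2

theorem four_bdd {F : P k m → ℂ} (hF : Continuous F) (hc : HasCompactSupport F) :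
    ∃ B : ℝ, 0 ≤ B ∧ ∀ y ξ, ‖𝓕 (sl F y) ξ‖ ≤ B := by
  obtain ⟨C, hC⟩ := hc.exists_bound_of_continuous hF
  have hC0 : 0 ≤ C := (norm_nonneg _).trans (hC 0)
  refine ⟨C * volume.real (KX F), by positivity, fun y ξ => ?_⟩
  rw [four_eq]
  refine norm_setIntegral_le_of_norm_le_const (isCompact_KX hc).measure_lt_top fun v _ => ?_
  rw [norm_mul, norm_ch, one_mul]
  exact hC _

/-- continuity of the integrand of `cop` for all slices -/
theorem cont_int (g : (Fin m → ℝ) → E k → ℂ)
    (hg : Continuous (fun q : (Fin m → ℝ) × E k => g q.1 q.2)) (ε : ℝ) :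
    Continuous (fun q : (P k m × ℝ) × E k => KK ε (g q.1.1.2) (q.1.1.1, q.1.2) q.2) := by
  have b1 : Continuous fun q : (P k m × ℝ) × E k => q.1.1.1 :=
    continuous_fst.comp (continuous_fst.comp continuous_fst)
  have b2 : Continuous fun q : (P k m × ℝ) × E k => q.1.1.2 :=
    continuous_snd.comp (continuous_fst.comp continuous_fst)
  have b3 : Continuous fun q : (P k m × ℝ) × E k => q.1.2 := continuous_snd.comp continuous_fst
  have b4 : Continuous fun q : (P k m × ℝ) × E k => q.2 := continuous_snd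
  have b5 : Continuous fun q : (P k m × ℝ) × E k => lam q.2 := continuous_lam.comp b4
  have c1 : Continuous fun q : (P k m × ℝ) × E k => ch q.1.1.1 q.2 := continuous_ch' _ _ b1 b4
  have c2 : Continuous fun q : (P k m × ℝ) × E k => nu q.1.2 (lam q.2) :=
    continuous_nu.comp (b3.prodMk b5)
  have c3 : Continuous fun q : (P k m × ℝ) × E k => Real.exp (-(ε * lam q.2)) :=
    Real.continuous_exp.comp (continuous_const.mul b5).neg
  have c4 : Continuous fun q : (P k m × ℝ) × E k => g q.1.1.2 q.2 :=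
    Continuous.comp (g := fun q : (Fin m → ℝ) × E k => g q.1 q.2)
      (f := fun q : (P k m × ℝ) × E k => (q.1.1.2, q.2)) hg (b2.prodMk b4)
  have c5 : Continuous fun q : (P k m × ℝ) × E k =>
      ((nu q.1.2 (lam q.2) * Real.exp (-(ε * lam q.2)) : ℝ) : ℂ) :=
    Complex.continuous_ofReal.comp (c2.mul c3)
  exact c1.mul (c5.mul c4)

theorem meas_int (g : (Fin m → ℝ) → E k → ℂ)
    (hg : Continuous (fun q : (Fin m → ℝ) × E k => g q.1 q.2)) (ε : ℝ) :
    StronglyMeasurable (fun p : P k m × ℝ => ∫ ξ, KK ε (g p.1.2) (p.1.1, p.2) ξ) := by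
  have h := (cont_int g hg ε).stronglyMeasurable
  exact StronglyMeasurable.integral_prod_right'
    (f := fun q : (P k m × ℝ) × E k => KK ε (g q.1.1.2) (q.1.1.1, q.1.2) q.2) h

theorem cont_y (g : (Fin m → ℝ) → E k → ℂ)
    (hg : Continuous (fun q : (Fin m → ℝ) × E k => g q.1 q.2)) (B : ℝ)
    (hB : ∀ y ξ, ‖g y ξ‖ ≤ B) (ε τ : ℝ) (hε : 0 < ε) (hτ : 0 < τ) (x : E k) :
    Continuous (fun y => ∫ ξ, KK ε (g y) (x, τ) ξ) := by
  obtain ⟨C, hC0, hC⟩ := Pool.Agent.U643.OE.symb_bound ε τ hε hτ
  have hgy : ∀ y : Fin m → ℝ, Continuous (g y) := by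
    intro y
    exact Continuous.comp (g := fun q : (Fin m → ℝ) × E k => g q.1 q.2)
      (f := fun ξ : E k => (y, ξ)) hg (continuous_const.prodMk continuous_id)
  have hgx : ∀ ξ : E k, Continuous (fun y : Fin m → ℝ => g y ξ) := by
    intro ξ
    exact Continuous.comp (g := fun q : (Fin m → ℝ) × E k => g q.1 q.2)
      (f := fun y : Fin m → ℝ => (y, ξ)) hg (continuous_id.prodMk continuous_const)
  have hcy : ∀ y : Fin m → ℝ, Continuous (KK ε (g y) (x, τ)) := by
    intro y
    have h := continuous_KK ε (g y) (hgy y)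
    exact Continuous.comp (g := Function.uncurry (KK ε (g y)))
      (f := fun ξ : E k => ((x, τ), ξ)) h (continuous_const.prodMk continuous_id)
  have hcx : ∀ ξ : E k, Continuous (fun y : Fin m → ℝ => KK ε (g y) (x, τ) ξ) := by
    intro ξ
    unfold KK
    exact continuous_const.mul (continuous_const.mul (hgx ξ))
  refine continuous_of_dominated (bound := fun ξ : E k =>
    C * Real.exp (-(ε / 2 * lam ξ)) * B) (fun y => (hcy y).aestronglyMeasurable) ?_ ?_ ?_
  · intro y
    refine Eventually.of_forall fun ξ => ?_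
    have h0 : 0 ≤ nu τ (lam ξ) * Real.exp (-(ε * lam ξ)) :=
      mul_nonneg (nu_nonneg τ _ (lam_nonneg ξ)) (Real.exp_pos _).le
    unfold KK
    rw [norm_mul, norm_ch, one_mul, norm_mul, Complex.norm_real, Real.norm_eq_abs,
      abs_of_nonneg h0]
    exact mul_le_mul (hC _ (lam_nonneg ξ)) (hB y ξ) (norm_nonneg _)
      (mul_nonneg hC0 (Real.exp_pos _).le)
  · exact ((integrable_gauss (d := k) (ε / 2) (by positivity)).const_mul C).mul_const B
  · exact Eventually.of_forall hcx

theorem t_Q2 : Q2 := by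
  intro k m F hF hc ε hε
  obtain ⟨B, hB0, hB⟩ := four_bdd hF hc
  have hg := four_cont hF hc
  refine ⟨?_, ?_⟩
  · have h3 := meas_int (fun y => 𝓕 (sl F y)) hg ε
    have h4 : (fun p : P k m × ℝ => cop ε p.2 (sl F p.1.2) p.1.1) =
        fun p : P k m × ℝ => ∫ ξ, KK ε (𝓕 (sl F p.1.2)) (p.1.1, p.2) ξ := by
      funext p
      exact cop_eq ε p.2 _ p.1.1
    rw [h4]
    exact h3
  · intro τ hτ x
    refine ⟨?_, ?_⟩
    · have h3 := cont_y (fun y => 𝓕 (sl F y)) hg B hB ε τ hε hτ x
      have h4 : (fun y => cop ε τ (sl F y) x) = fun y => ∫ ξ, KK ε (𝓕 (sl F y)) (x, τ) ξ := by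
        funext y
        exact cop_eq ε τ _ x
      rw [h4]
      exact h3
    · refine HasCompactSupport.intro (isCompact_KY hc) fun y hy => ?_
      have h5 : sl F y = fun _ => 0 := by
        funext v
        exact zero_Y hy v
      have h6 : 𝓕 (sl F y) = fun _ => 0 := by
        funext ξ
        rw [h5, Real.fourier_eq]
        simp
      have h8 : ∀ ξ : E k, KK ε (𝓕 (sl F y)) (x, τ) ξ = 0 := by
        intro ξ
        rw [h6]
        unfold KK
        rw [mul_zero, mul_zero]
      rw [cop_eq]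
      simp only [h8, integral_zero]

end Pool.Agent.U858.OL
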